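import Pool.Agent.H88.CL.Basic

/-! Closing lemma on the torus: row CNJ, translation of a close map. -/

set_option autoImplicit false

open Pool.Agent.H88.CL Set Function Topology Metric Filter

namespace Pool.Agent.H5.CL

/-- CNJ -/
theorem pf_CNJ (h1 : T_MOD) (h2 : T_OMB) : T_CNJ := by
  intro d L ω η hL hω hη
  have hL0 : 0 < L := by linarith
  obtain ⟨r0, hr0, hr⟩ := h2 ω hω (2 * L / η)
  obtain ⟨δ, hδ⟩ : ∃ δ, δ = min r0 (η / (L + 1)) := ⟨_, rfl⟩
  have hδ0 : 0 < δ := by
    rw [hδ]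
    exact lt_min hr0 (by positivity)
  have hδ1 : 2 * L * δ ≤ η * ω δ := by
    have h3 := hr δ hδ0 (hδ ▸ min_le_left _ _)
    have h4 : η * (2 * L / η * δ) ≤ η * ω δ := mul_le_mul_of_nonneg_left h3 hη.le
    have h5 : η * (2 * L / η * δ) = 2 * L * δ := by
      field_simp
    linarith
  have hδ2 : (L + 1) * δ ≤ η := by
    have h3 : δ ≤ η / (L + 1) := hδ ▸ min_le_right _ _
    rw [le_div_iff₀ (by linarith)] at h3
    linarith
  refine ⟨δ, hδ0, ?_⟩
  rintro F F' G G' t hC hG ⟨c1, c2, c3⟩ ht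
  have hGd : Differentiable ℝ G := hG.c2.differentiable (by norm_num)
  have hfd : ∀ u, fderiv ℝ (fun y => G (y + t) - t) u = fderiv ℝ G (u + t) := by
    intro u
    rw [fderiv_sub_const, fderiv_comp_add_right]
  have hFL : ∀ x y, ‖F x - F y‖ ≤ L * ‖x - y‖ := by
    intro x y
    have hFd : Differentiable ℝ F := hC.c2.differentiable (by norm_num)
    exact Convex.norm_image_sub_le_of_norm_fderiv_le (fun z _ => hFd z) (fun z _ => hC.b z)
      convex_univ (mem_univ y) (mem_univ x)
  have htn : ∀ x : E d, ‖x + t - x‖ ≤ δ := by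
    intro x
    rw [add_sub_cancel_left]
    exact ht
  refine ⟨⟨?_, ?_, ?_, ?_, ?_, ?_⟩, ?_, ?_, ?_⟩
  · exact (hG.c2.comp (contDiff_id.add contDiff_const)).sub contDiff_const
  · exact (hG.c2'.comp (contDiff_id.add contDiff_const)).sub contDiff_const
  · intro x
    rw [sub_add_cancel, hG.li, add_sub_cancel_right]
  · intro x
    rw [sub_add_cancel, hG.ri, add_sub_cancel_right]
  · intro x z hz
    have h3 := hG.per (x + t) z hz
    have e : G (x + z + t) - t - (G (x + t) - t) = G (x + t + z) - G (x + t) := by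
      rw [add_right_comm x z t]
      abel
    change G (x + z + t) - t - (G (x + t) - t) ∈ Lat d
    rw [e]
    exact h3
  · intro x z hz
    have h3 := hG.per' (x + t) z hz
    have e : G' (x + z + t) - t - (G' (x + t) - t) = G' (x + t + z) - G' (x + t) := by
      rw [add_right_comm x z t]
      abel
    change G' (x + z + t) - t - (G' (x + t) - t) ∈ Lat d
    rw [e]
    exact h3
  · intro u
    have e : G (u + t) - t - F u = (G (u + t) - F (u + t)) + (F (u + t) - F u) - t := by abel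
    change ‖G (u + t) - t - F u‖ ≤ 2 * η
    rw [e]
    have h3 := norm_sub_le ((G (u + t) - F (u + t)) + (F (u + t) - F u)) t
    have h4 := norm_add_le (G (u + t) - F (u + t)) (F (u + t) - F u)
    have h5 := c1 (u + t)
    have h6 := hFL (u + t) u
    have h7 : L * ‖u + t - u‖ ≤ L * δ := mul_le_mul_of_nonneg_left (htn u) hL0.le
    linarith
  · intro u
    rw [hfd]
    have e : fderiv ℝ G (u + t) - fderiv ℝ F u =
        (fderiv ℝ G (u + t) - fderiv ℝ F (u + t)) + (fderiv ℝ F (u + t) - fderiv ℝ F u) := by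
      abel
    rw [e]
    have h4 := norm_add_le (fderiv ℝ G (u + t) - fderiv ℝ F (u + t))
      (fderiv ℝ F (u + t) - fderiv ℝ F u)
    have h5 := c2 (u + t)
    have h6 := hC.lp (u + t) u
    have h7 : L * ‖u + t - u‖ ≤ L * δ := mul_le_mul_of_nonneg_left (htn u) hL0.le
    linarith
  · intro u v huv
    rw [hfd, hfd]
    have hr : 0 < ‖u - v‖ := norm_pos_iff.2 (sub_ne_zero.2 huv)
    have huv' : u + t ≠ v + t := fun e => huv (add_right_cancel e)
    have e1 : u + t - (v + t) = u - v := by abel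
    have h3 := c3 (u + t) (v + t) huv'
    rw [e1] at h3
    have e : fderiv ℝ G (u + t) - fderiv ℝ F u - (fderiv ℝ G (v + t) - fderiv ℝ F v) =
        (fderiv ℝ G (u + t) - fderiv ℝ F (u + t) - (fderiv ℝ G (v + t) - fderiv ℝ F (v + t))) +
        ((fderiv ℝ F (u + t) - fderiv ℝ F u) - (fderiv ℝ F (v + t) - fderiv ℝ F v)) := by
      abel
    rw [e]
    have h4 := norm_add_le
      (fderiv ℝ G (u + t) - fderiv ℝ F (u + t) - (fderiv ℝ G (v + t) - fderiv ℝ F (v + t)))
      ((fderiv ℝ F (u + t) - fderiv ℝ F u) - (fderiv ℝ F (v + t) - fderiv ℝ F v))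
    have h5 : ‖(fderiv ℝ F (u + t) - fderiv ℝ F u) - (fderiv ℝ F (v + t) - fderiv ℝ F v)‖ ≤
        2 * L * δ := by
      have h6 := norm_sub_le (fderiv ℝ F (u + t) - fderiv ℝ F u)
        (fderiv ℝ F (v + t) - fderiv ℝ F v)
      have h7 := hC.lp (u + t) u
      have h8 := hC.lp (v + t) v
      have h9 : L * ‖u + t - u‖ ≤ L * δ := mul_le_mul_of_nonneg_left (htn u) hL0.le
      have h10 : L * ‖v + t - v‖ ≤ L * δ := mul_le_mul_of_nonneg_left (htn v) hL0.le
      linarith
    have h6 : ‖(fderiv ℝ F (u + t) - fderiv ℝ F u) - (fderiv ℝ F (v + t) - fderiv ℝ F v)‖ ≤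
        2 * L * ‖u - v‖ := by
      have e2 : (fderiv ℝ F (u + t) - fderiv ℝ F u) - (fderiv ℝ F (v + t) - fderiv ℝ F v) =
          (fderiv ℝ F (u + t) - fderiv ℝ F (v + t)) - (fderiv ℝ F u - fderiv ℝ F v) := by abel
      rw [e2]
      have h7 := norm_sub_le (fderiv ℝ F (u + t) - fderiv ℝ F (v + t))
        (fderiv ℝ F u - fderiv ℝ F v)
      have h8 := hC.lp (u + t) (v + t)
      have h9 := hC.lp u v
      rw [e1] at h8
      linarith
    have h7 := h1 ω hω (2 * L * δ) (2 * L) η ‖u - v‖ (by positivity) (by positivity) hη.le hr (by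
      rw [mul_div_cancel_left₀ _ (by positivity)]
      exact hδ1)
    have h8 := le_min h5 h6
    linarith

end Pool.Agent.H5.CL
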