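import Pool.Agent.H88.CL.Basic

/-! Closing lemma on the torus: row LFA, a diffeomorphism of the torus has mutually inverse lifts. -/

set_option autoImplicit false

open Pool.Agent.H88.CL Set Function Topology Metric Filter

namespace Pool.Agent.H5.CL

/-- LFA -/
theorem pf_LFA (h : T_CON) : T_LFA := by
  rintro d f ⟨⟨F, hF, hFf⟩, F0, hF0, hF0f⟩
  have h1 : ∀ x, F0 (F x) - x ∈ Lat d := by
    intro x
    rw [← mk_eq, ← hF0f, ← hFf, Equiv.symm_apply_apply]
  have hc1 : Continuous fun x => F0 (F x) - x :=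
    (hF0.continuous.comp hF.continuous).sub continuous_id
  obtain ⟨z0, hz0⟩ : ∃ z0, z0 = F0 (F 0) - 0 := ⟨_, rfl⟩
  have hz0L : z0 ∈ Lat d := hz0 ▸ h1 0
  have h2 : ∀ x, F0 (F x) - x = z0 := fun x => (h d _ hc1 h1 x 0).trans hz0.symm
  obtain ⟨F', hF'⟩ : ∃ F' : E d → E d, F' = fun y => F0 y - z0 := ⟨_, rfl⟩
  have hF'a : ∀ y, F' y = F0 y - z0 := fun y => by rw [hF']
  have hc2 : ContDiff ℝ 2 F' := by
    rw [hF']
    exact hF0.sub contDiff_const
  have hli : ∀ x, F' (F x) = x := by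
    intro x
    rw [hF'a, ← h2 x]
    abel
  have hF'f : ∀ x, f.symm (mk d x) = mk d (F' x) := by
    intro x
    rw [hF0f, mk_eq, hF'a]
    have e : F0 x - (F0 x - z0) = z0 := by abel
    rw [e]
    exact hz0L
  have h3 : ∀ y, F (F' y) - y ∈ Lat d := by
    intro y
    rw [← mk_eq, ← hFf, ← hF'f, Equiv.apply_symm_apply]
  have hc3 : Continuous fun y => F (F' y) - y :=
    (hF.continuous.comp hc2.continuous).sub continuous_id
  obtain ⟨z1, hz1⟩ : ∃ z1, z1 = F (F' 0) - 0 := ⟨_, rfl⟩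
  have h4 : ∀ y, F (F' y) = y + z1 := by
    intro y
    have h5 : F (F' y) - y = z1 := (h d _ hc3 h3 y 0).trans hz1.symm
    rw [← h5]
    abel
  have hz : z1 = 0 := by
    have h5 : F' (0 + z1) = F' 0 := by
      rw [← h4 0, hli]
    have h6 := h4 (0 + z1)
    rw [h5, h4 0] at h6
    exact (left_eq_add.1 h6)
  have hri : ∀ x, F (F' x) = x := by
    intro x
    rw [h4, hz, add_zero]
  refine ⟨F, F', ⟨hF, hc2, hli, hri, ?_, ?_⟩, hFf, hF'f⟩
  · intro x z hz'
    rw [← mk_eq, ← hFf, ← hFf]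
    congr 1
    rw [mk_eq]
    have e : x + z - x = z := by abel
    rw [e]
    exact hz'
  · intro x z hz'
    rw [← mk_eq, ← hF'f, ← hF'f]
    congr 1
    rw [mk_eq]
    have e : x + z - x = z := by abel
    rw [e]
    exact hz'

end Pool.Agent.H5.CL
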