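import Pool.Agent.H88.CL.Basic

/-! Closing lemma on the torus: row SCL, the scales. -/

set_option autoImplicit false

open Pool.Agent.H88.CL Set Function Topology Metric Filter

namespace Pool.Agent.H5.CL

theorem tendsto_mod {ω : ℝ → ℝ} (h : Modulus ω) :
    Tendsto (fun t : ℝ => ω (Real.exp (-t)) * t) atTop atTop := by
  have h1 : Tendsto (fun t : ℝ => Real.exp (-t)) atTop (𝓝[>] 0) := by
    rw [tendsto_nhdsWithin_iff]
    exact ⟨Real.tendsto_exp_neg_atTop_nhds_zero, Eventually.of_forall fun t => Real.exp_pos _⟩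
  have h2 := h.log.comp h1
  refine h2.congr fun t => ?_
  change ω (Real.exp (-t)) * Real.log (1 / Real.exp (-t)) = _
  rw [one_div, Real.log_inv, Real.log_exp, neg_neg]

open Classical in
/-- SCL -/
theorem pf_SCL : T_SCL := by
  intro ω hω
  obtain ⟨P, hP⟩ : ∃ P : ℕ → ℕ → Prop, P = fun (N k : ℕ) => ∀ t : ℝ, (N : ℝ) ≤ t →
    (k : ℝ) ^ 3 ≤ ω (Real.exp (-t)) * t := ⟨_, rfl⟩
  have hP' : ∀ N k, P N k ↔ ∀ t : ℝ, (N : ℝ) ≤ t → (k : ℝ) ^ 3 ≤ ω (Real.exp (-t)) * t := by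
    intro N k
    rw [hP]
  have hP0 : ∀ N, P N 0 := by
    intro N
    rw [hP']
    intro t ht
    have h1 := hω.pos _ (Real.exp_pos (-t))
    have h2 : (0 : ℝ) ≤ N := Nat.cast_nonneg N
    have h3 : 0 ≤ t := h2.trans ht
    have h4 : ((0 : ℕ) : ℝ) ^ 3 = 0 := by norm_num
    rw [h4]
    positivity
  obtain ⟨g, hg⟩ : ∃ g : ℕ → ℕ, g = fun N => Nat.findGreatest (P N) N := ⟨_, rfl⟩
  have hg1 : ∀ N, P N (g N) := by
    intro N
    rw [hg]
    exact Nat.findGreatest_spec (Nat.zero_le N) (hP0 N)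
  have hg2 : ∀ N, g N ≤ N := by
    intro N
    rw [hg]
    exact Nat.findGreatest_le N
  have hg3 : ∀ N k, k ≤ N → P N k → k ≤ g N := by
    intro N k h1 h2
    rw [hg]
    exact Nat.le_findGreatest h1 h2
  have hgm : Monotone g := by
    refine monotone_nat_of_le_succ fun N => ?_
    refine hg3 _ _ ((hg2 N).trans (Nat.le_succ N)) ?_
    rw [hP']
    intro t ht
    refine (hP' _ _).1 (hg1 N) t ?_
    push_cast at ht
    linarith
  have hginf : ∀ k : ℕ, ∃ N0 : ℕ, ∀ N ≥ N0, k ≤ g N := by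
    intro k
    obtain ⟨T, hT⟩ := (tendsto_atTop.1 (tendsto_mod hω) ((k : ℝ) ^ 3)).exists_forall_of_atTop
    refine ⟨max ⌈T⌉₊ k, fun N hN => hg3 N k ((le_max_right _ _).trans hN) ?_⟩
    rw [hP']
    intro t ht
    refine hT t ?_
    have h1 : T ≤ ⌈T⌉₊ := Nat.le_ceil T
    have h2 : ((⌈T⌉₊ : ℕ) : ℝ) ≤ N := by exact_mod_cast (le_max_left _ _).trans hN
    linarith
  refine ⟨fun N => (N : ℝ) * g N, ?_, ?_, ?_⟩
  · intro A
    obtain ⟨N0, hN0⟩ := hginf ⌈A⌉₊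
    refine ⟨N0, fun N hN => ?_⟩
    have h1 : A ≤ ⌈A⌉₊ := Nat.le_ceil A
    have h2 : ((⌈A⌉₊ : ℕ) : ℝ) ≤ g N := by exact_mod_cast hN0 N hN
    have h3 : (0 : ℝ) ≤ N := Nat.cast_nonneg N
    change A * N ≤ (N : ℝ) * g N
    nlinarith
  · intro a b hab
    have h1 : (a : ℝ) ≤ b := by exact_mod_cast hab
    have h2 : (g a : ℝ) ≤ g b := by exact_mod_cast hgm hab
    exact mul_le_mul h1 h2 (Nat.cast_nonneg _) (Nat.cast_nonneg _)
  · intro M
    obtain ⟨N0, hN0⟩ := hginf (⌈4 * |M|⌉₊ + 1)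
    refine ⟨max N0 1, fun N hN => ?_⟩
    have hN1 : 1 ≤ N := (le_max_right _ _).trans hN
    have hk := hN0 (N + 1) (((le_max_left _ _).trans hN).trans (Nat.le_succ N))
    obtain ⟨k, hkk⟩ : ∃ k : ℝ, k = g (N + 1) := ⟨_, rfl⟩
    have hk1 : 4 * |M| + 1 ≤ k := by
      have h1 : 4 * |M| ≤ ⌈4 * |M|⌉₊ := Nat.le_ceil _
      have h2 : ((⌈4 * |M|⌉₊ + 1 : ℕ) : ℝ) ≤ k := by
        rw [hkk]
        exact_mod_cast hk
      push_cast at h2
      linarith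
    have hM0 : 0 ≤ |M| := abs_nonneg M
    have hk0 : 1 ≤ k := by linarith
    have hNR : (1 : ℝ) ≤ N := by exact_mod_cast hN1
    have ht : ((N + 1 : ℕ) : ℝ) ≤ 2 * ((N + 1 : ℕ) * k) := by
      push_cast
      nlinarith
    have h3 := (hP' _ _).1 (hg1 (N + 1)) _ ht
    rw [← hkk] at h3
    change M / N ≤ ω (Real.exp (-(2 * (((N + 1 : ℕ) : ℝ) * g (N + 1)))))
    rw [← hkk]
    obtain ⟨W, hW⟩ : ∃ W, W = ω (Real.exp (-(2 * (((N + 1 : ℕ) : ℝ) * k)))) := ⟨_, rfl⟩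
    rw [← hW] at h3 ⊢
    push_cast at h3
    have h4 : k ^ 2 ≤ W * (2 * (N + 1)) := by
      have h5 : k * k ^ 2 ≤ k * (W * (2 * (N + 1))) := by nlinarith
      exact le_of_mul_le_mul_left h5 (by linarith)
    have h6 : 4 * |M| ≤ k ^ 2 := by nlinarith
    have h7 : |M| ≤ W * N := by
      have h8 : 0 ≤ W := by
        rw [hW]
        exact (hω.pos _ (Real.exp_pos _)).le
      nlinarith
    rw [div_le_iff₀ (by linarith)]
    exact (le_abs_self M).trans h7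

end Pool.Agent.H5.CL
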